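import Pool.Agent.Lib.MP_93793a_nt.F5

/-! Every large `n` has many primes `p` in `[1, n / 2]` for which `m ^ 2 + m + 1`, `m = p (n - p)`,
has at most `13` prime factors (counted with multiplicity), all of them at least `n ^ (1 / 36)`. -/

set_option autoImplicit false

namespace Pool.Agent.Results.MP_93793a_nt.PrimeSummand

theorem result :
    ∃ c : ℝ, 0 < c ∧ ∃ n₀ : ℕ, ∀ n : ℕ, n₀ ≤ n →
      c * (n : ℝ) / Real.log n ^ 4 ≤ (Set.ncard {p : ℕ | p.Prime ∧ 2 * p ≤ n ∧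
        ArithmeticFunction.cardFactors ((p * (n - p)) ^ 2 + p * (n - p) + 1) ≤ 13 ∧
        ∀ l : ℕ, l.Prime → l ∣ (p * (n - p)) ^ 2 + p * (n - p) + 1 →
          (n : ℝ) ^ (1 / 36 : ℝ) ≤ l} : ℝ) :=
  Pool.Agent.Lib.MP_93793a_nt.f5_main

end Pool.Agent.Results.MP_93793a_nt.PrimeSummand
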